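import Mathlib
import Pool.Agent.H447R2.ML.Spec
import Pool.Agent.U776.PS.All

set_option autoImplicit false

/-!
# NSW numbers: Poisson law for almost every real solution of the recursion

The real solutions of `T (n + 2) = 2 T (n + 1) + T n` are the sequences `T β B n = β α ^ n + B α' ^ n`
with `α = 1 + √2`, `α' = 1 - √2`; the NSW numbers `s n` (the question asks for the primes `s p`, `p` an
odd prime) are the solution with `β = B = 1 / 2`.  For a prime `p` let `W β B p` be the `p`-rough part
(the product, with multiplicity, of the prime factors larger than `p`) of `⌊T β B p⌋`; for the numbers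
`s` this is `s p` itself, for all primes `p > 3`.

Poisson model: the numbers of the primes `p` in disjoint sets with `W β B p` prime should behave like
independent Poisson variables, and the expected number in a finite set `S` of primes should be
`κ * V S`, `V S = ∑_{p ∈ S} log p / p`, `κ = e ^ γ / log (1 + √2)`.  We prove that almost every single
`β` behaves in this way, for all `B` at once, along thin sets of primes: sets whose part in every dyadic
interval `(x, 2 x]` has small weight `V`.

Precisely, let `y 0 ≤ y 1 ≤ …`, and let `S n i`, `i` in a finite index set, be disjoint finite sets of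
primes in `[y n, y (n + 1))`, thin as `n → ∞`, with `V (S n i) → v i`.  Let `X n` be the vector of the
numbers of good primes in the sets `S n i`.  For almost every `β > 0` and all real `B`, the sequence
`X 0, X 1, X 2, …` is generic for the sequence of independent vectors of independent Poisson variables
with the parameters `κ * v i`: every tuple `(k 0, …, k (r - 1))` of vectors occurs among the tuples
`(X n, …, X (n + r - 1))` with its Poisson probability as frequency.
-/

namespace Pool.Agent.Results.MP_eaa2ff_nt.PoissonLaw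

open Filter Topology MeasureTheory

/-- The NSW numbers `s n = ((1 + √2) ^ n + (1 - √2) ^ n) / 2`: `1, 1, 3, 7, 17, 41, …`; in the question
the index is an odd prime. -/
def s : ℕ → ℕ
  | 0 => 1
  | 1 => 1
  | (n + 2) => 2 * s (n + 1) + s n

/-- The fundamental unit. -/
noncomputable def α : ℝ := 1 + Real.sqrt 2

/-- The conjugate of the fundamental unit. -/
noncomputable def α' : ℝ := 1 - Real.sqrt 2

/-- The real solutions of `T (n + 2) = 2 T (n + 1) + T n`. -/
noncomputable def T (β B : ℝ) (n : ℕ) : ℝ := β * α ^ n + B * α' ^ n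

/-- The product, with multiplicity, of the prime factors of `m` that are larger than `p`. -/
def roughPart (p m : ℕ) : ℕ := (m.primeFactorsList.filter (fun r => p < r)).prod

/-- The `p`-rough part of `⌊T β B p⌋`. -/
noncomputable def W (β B : ℝ) (p : ℕ) : ℕ := roughPart p ⌊T β B p⌋₊

/-- The number of the `p` in the finite set `S` for which `W β B p` is prime. -/
noncomputable def N (S : Finset ℕ) (β B : ℝ) : ℕ := (S.filter (fun p => (W β B p).Prime)).card

/-- The weight `∑_{p ∈ S} log p / p` of a finite set. -/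
noncomputable def V (S : Finset ℕ) : ℝ := ∑ p ∈ S, Real.log p / p

/-- The constant `e ^ γ / log (1 + √2)`. -/
noncomputable def κ : ℝ := Real.exp Real.eulerMascheroniConstant / Real.log α

/-- The weights of the Poisson law with the parameter `lam`. -/
noncomputable def pois (lam : ℝ) (k : ℕ) : ℝ := Real.exp (-lam) * lam ^ k / k.factorial

/-- `S 0, S 1, …` are families (indexed by `ι`) of pairwise disjoint finite sets of primes; the weight
of the part in a dyadic interval tends to zero, uniformly in the interval. -/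
structure Thin {ι : Type} (S : ℕ → ι → Finset ℕ) : Prop where
  prime : ∀ n i, ∀ p ∈ S n i, p.Prime
  disjoint : ∀ n i j, i ≠ j → Disjoint (S n i) (S n j)
  dyadic : ∀ δ : ℝ, 0 < δ → ∀ᶠ n in atTop, ∀ i, ∀ x : ℕ,
    V ((S n i).filter (fun p => x < p ∧ p ≤ 2 * x)) ≤ δ

lemma sq2 : Real.sqrt 2 ^ 2 = 2 := Real.sq_sqrt (by norm_num)

lemma sqrt2_pos : 0 < Real.sqrt 2 := Real.sqrt_pos.2 (by norm_num)

lemma one_lt_sqrt2 : 1 < Real.sqrt 2 := by
  rw [Real.lt_sqrt (by norm_num)]
  norm_num

lemma sqrt2_lt : Real.sqrt 2 < 2 := by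
  rw [Real.sqrt_lt' (by norm_num)]
  norm_num

lemma one_lt_alpha : 1 < α := by
  unfold α
  linarith [sqrt2_pos]

lemma conj_lt : |α'| < 1 := by
  unfold α'
  rw [abs_lt]
  constructor <;> linarith [one_lt_sqrt2, sqrt2_lt]

lemma alpha_sq : α ^ 2 = 2 * α + 1 := by unfold α; nlinarith [sq2]

lemma conj_sq : α' ^ 2 = 2 * α' + 1 := by unfold α'; nlinarith [sq2]

lemma T_rec (β B : ℝ) (n : ℕ) : T β B (n + 2) = 2 * T β B (n + 1) + T β B n := by
  unfold T
  rw [pow_add α n 2, pow_add α' n 2, alpha_sq, conj_sq]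
  ring

/-- the NSW numbers -/
lemma T_nsw (n : ℕ) : T (1 / 2) (1 / 2) n = (s n : ℝ) := by
  induction n using Nat.twoStepInduction with
  | zero => unfold T; norm_num [s]
  | one =>
    unfold T α α'
    simp only [pow_one, s, Nat.cast_one]
    ring
  | more n h1 h2 =>
    rw [T_rec, h1, h2]
    show _ = ((2 * s (n + 1) + s n : ℕ) : ℝ)
    push_cast
    ring

lemma luc_eq (n : ℕ) : Pool.Agent.H447R2.ML.V 2 n = 2 * s n := by
  induction n using Nat.twoStepInduction with
  | zero => rfl
  | one => rfl
  | more n h1 h2 =>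
    rw [Pool.Agent.H447R2.ML.V_add_two, h1, h2]
    show _ = 2 * (2 * s (n + 1) + s n)
    ring

lemma s_odd (n : ℕ) : Odd (s n) := by
  induction n using Nat.twoStepInduction with
  | zero => exact odd_one
  | one => exact odd_one
  | more n h1 h2 =>
    show Odd (2 * s (n + 1) + s n)
    exact (even_two_mul _).add_odd h1

/-- The NSW numbers. -/
lemma W_nsw {p : ℕ} (hp : p.Prime) (h3 : 3 < p) : W (1 / 2) (1 / 2) p = s p := by
  have h5 : 5 ≤ p := by
    by_contra h
    have : p = 4 := by omega
    subst this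
    exact absurd hp (by norm_num)
  have hd : ¬ p ∣ 2 := fun h => by
    have := Nat.le_of_dvd two_pos h
    omega
  have h : Pool.Agent.H305R2.roughPart p ⌊T (1 / 2) (1 / 2) p⌋₊ = s p := by
    rw [T_nsw, Nat.floor_natCast]
    refine Pool.Agent.H447R2.ML.roughPart_eq_self ?_ fun q hq h => ?_
    · exact (s_odd p).pos.ne'
    · refine Pool.Agent.H447R2.ML.lt_of_dvd_V 2 hp h5 hd hq (fun h' => ?_) ?_
      · have h2 : q = 2 := (Nat.prime_dvd_prime_iff_eq hq Nat.prime_two).1 h'
        subst h2
        exact (Nat.not_even_iff_odd.2 (s_odd p)) (even_iff_two_dvd.2 h)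
      · rw [luc_eq]
        exact h.mul_left 2
  exact h

/-- the numbers of good indices of the solution and of the amplitude -/
lemma N_eq {β B : ℝ} {m : ℕ}
    (h : ∀ p ≥ m, ⌊β * α ^ p + B * α' ^ p⌋₊ = ⌊β * α ^ p + 0⌋₊)
    {S : Finset ℕ} (hS : ∀ p ∈ S, m ≤ p) :
    N S β B = Pool.Agent.U776.PL.NE (Pool.Agent.U776.PG.Er Pool.Agent.U776.PS.sr) S β := by
  unfold N Pool.Agent.U776.PL.NE
  refine congrArg Finset.card (Finset.ext fun p => ?_)
  simp only [Finset.mem_filter]
  refine and_congr_right fun hp => ?_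
  have h1 := h p (hS p hp)
  rw [add_zero] at h1
  have h2 : W β B p = Pool.Agent.H305R2.roughPart p ⌊β * α ^ p⌋₊ := by
    rw [← h1]
    rfl
  rw [h2]
  rfl

open Classical in
/-- The special values; the Poisson law for almost every leading coefficient and all solutions with
this leading coefficient at once. -/
theorem result :
    (∀ (β B : ℝ) (n : ℕ), T β B (n + 2) = 2 * T β B (n + 1) + T β B n) ∧
    (∀ n : ℕ, T (1 / 2) (1 / 2) n = s n) ∧
    (∀ p : ℕ, p.Prime → 3 < p → W (1 / 2) (1 / 2) p = s p) ∧
    (∀ (ι : Type) [Fintype ι] (S : ℕ → ι → Finset ℕ) (v : ι → ℝ), Thin S →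
      ∀ y : ℕ → ℕ, Monotone y → (∀ n i, ∀ p ∈ S n i, y n ≤ p ∧ p < y (n + 1)) →
      (∀ i, Tendsto (fun n => V (S n i)) atTop (𝓝 (v i))) → 0 < ∑ i, v i →
      ∀ᵐ β : ℝ, 0 < β → ∀ B : ℝ, ∀ (r : ℕ) (k : Fin r → ι → ℕ),
      Tendsto (fun m : ℕ => (((Finset.range m).filter
        (fun n => ∀ (l : Fin r) (i : ι), N (S (n + l) i) β B = k l i)).card : ℝ) / (m : ℝ)) atTop
        (𝓝 (∏ l, ∏ i, pois (κ * v i) (k l i)))) := by
  refine ⟨T_rec, T_nsw, fun p hp h3 => W_nsw hp h3, ?_⟩
  intro ι _ S v hS y hmono hy hv hpos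
  obtain ⟨Λ, A, P, C, c0, H⟩ := Pool.Agent.U776.PS.qm_silver
  have h := Pool.Agent.U776.PG.quenched_tuples H S y hmono hy hS.disjoint hS.dyadic hv hpos
  filter_upwards [h, Pool.Agent.N176.GW.floor_ae one_lt_alpha] with β h1 h2 h0 B r k
  obtain ⟨m, hm⟩ := eventually_atTop.1 (h2 h0 α' conj_lt B)
  have hlarge := Pool.Agent.U776.PL.large_of_windows hy hS.disjoint hv hpos m
  obtain ⟨n0, hn0⟩ := eventually_atTop.1 hlarge
  have h3 := h1 h0 r k
  simp only [Finset.card_filter, Nat.cast_sum, Nat.cast_ite, Nat.cast_one, Nat.cast_zero] at h3 ⊢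
  refine Pool.Agent.U776.PG.avg_congr (fun n => ?_) (fun n => ?_) ?_ h3
  · split_ifs <;> simp
  · split_ifs <;> simp
  · filter_upwards [eventually_ge_atTop n0] with n hn
    have h5 : ∀ (l : Fin r) (i : ι), N (S (n + l) i) β B =
        Pool.Agent.U776.PL.NE (Pool.Agent.U776.PG.Er Pool.Agent.U776.PS.sr) (S (n + l) i) β :=
      fun l i => N_eq hm (hn0 (n + l) (by omega) i)
    rw [if_congr (forall_congr' fun l => forall_congr' fun i => by rw [h5 l i]) rfl rfl]

end Pool.Agent.Results.MP_eaa2ff_nt.PoissonLaw
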